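import Pool.Agent.Helper11.Stc.Planar2
import Pool.Agent.Helper11.Stc.Lower
import Pool.Agent.Helper11.Stc.BipyrPlanar

set_option autoImplicit false

/-!
# The maximum spanning tree congestion of planar graphs

For every `n ≥ 5` the maximum of the spanning tree congestion `stc G` over all connected planar
graphs `G` with `n` vertices equals `n` if `n` is even and `n - 1` if `n` is odd.
-/

namespace Pool.Agent.Results.MP_aff8e8_co.PlanarStc

open Pool.Agent.Helper11.Stc

/-- `μ_p(n) = n` for even `n ≥ 6` and `μ_p(n) = n - 1` for odd `n ≥ 5`. -/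
theorem result (n : ℕ) (hn : 5 ≤ n) :
    IsGreatest {k : ℕ | ∃ (V : Type) (_ : Fintype V) (G : SimpleGraph V),
      Fintype.card V = n ∧ G.Connected ∧ IsPlanarMap G ∧ k = stc G}
      (if Even n then n else n - 1) := by
  have hk : (if Even n then n else n - 1) = 2 * (n / 2) := by
    split_ifs with h
    · obtain ⟨m, hm⟩ := h
      omega
    · rw [Nat.not_even_iff_odd] at h
      obtain ⟨m, hm⟩ := h
      omega
  rw [hk]
  constructor
  · obtain ⟨m, rfl⟩ : ∃ m, n = m + 2 := ⟨n - 2, by omega⟩
    have hm : 3 ≤ m := by omega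
    haveI : NeZero m := ⟨by omega⟩
    refine ⟨ZMod m ⊕ Bool, inferInstance, bipyr m, ?_, bipyr_connected m hm,
      bipyr_planar m hm, ?_⟩
    · rw [Fintype.card_sum, ZMod.card, Fintype.card_bool]
    · apply le_antisymm (le_stc_bipyr m hm)
      have := stc_le_of_planar (bipyr m) (bipyr_connected m hm) (bipyr_planar m hm)
        (by rw [Fintype.card_sum, ZMod.card, Fintype.card_bool]; omega)
      rwa [Fintype.card_sum, ZMod.card, Fintype.card_bool] at this
  · rintro k ⟨V, _, G, hV, hc, hp, rfl⟩
    have := stc_le_of_planar G hc hp (by omega)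
    rwa [hV] at this

end Pool.Agent.Results.MP_aff8e8_co.PlanarStc
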